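import Mathlib.FieldTheory.KummerPolynomial
import Mathlib.FieldTheory.IsAlgClosed.Basic
import Mathlib.RingTheory.Norm.Basic
import Mathlib.RingTheory.AdjoinRoot
import Mathlib.RingTheory.RootsOfUnity.PrimitiveRoots
import Mathlib.RingTheory.RootsOfUnity.AlgebraicallyClosed
import Mathlib
import Mathlib.Algebra.MonoidAlgebra.Basic
import Mathlib.Data.Nat.Factorization.Induction

section
/-! Pure pairs: the Kummer step. -/
set_option autoImplicit false

universe u v

namespace Pool.Agent.MP743d1e.CZ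

open Polynomial

/-- A pure pair: `x^a y^b` is a `p`-th power only if `p` divides `a` and `b`. -/
def Pure {L : Type u} [Field L] (x y : L) : Prop :=
  ∀ p : ℕ, p.Prime → ∀ a b : ℤ, (∃ z : L, x ^ a * y ^ b = z ^ p) → (p : ℤ) ∣ a ∧ (p : ℤ) ∣ b

theorem Pure.swap {L : Type u} [Field L] {x y : L} (h : Pure x y) : Pure y x := by
  intro p hp a b ⟨z, hz⟩
  exact (h p hp b a ⟨z, by rw [mul_comm, hz]⟩).symm

theorem Pure.not_pow {L : Type u} [Field L] {x y : L} (h : Pure x y) (p : ℕ) (hp : p.Prime) (b : L) :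
    b ^ p ≠ y := by
  intro hb
  have := (h p hp 0 1 ⟨b, by simp [hb]⟩).2
  exact hp.one_lt.ne' (by exact_mod_cast Int.eq_one_of_dvd_one (by positivity) this)

section step

variable {F : Type v} {L : Type u} [Field F] [Field L] [Algebra F L]

/-- The Kummer extension of prime degree. -/
theorem kummer_exists (p : ℕ) (hp : p.Prime) (y : L) (hy : ∀ b : L, b ^ p ≠ y) :
    ∃ (M : Type u) (_ : Field M) (_ : Algebra F M) (_ : Algebra L M) (_ : IsScalarTower F L M)
      (pb : PowerBasis L M), pb.dim = p ∧ pb.gen ^ p = algebraMap L M y ∧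
      minpoly L pb.gen = X ^ p - C y ∧
      ∀ ζ : F, ζ ^ p = 1 → ∃ σ : M →ₐ[L] M, σ pb.gen = algebraMap F M ζ * pb.gen := by
  set f : L[X] := X ^ p - C y with hf
  have hirr : Irreducible f := X_pow_sub_C_irreducible_of_prime hp hy
  have hmon : f.Monic := monic_X_pow_sub_C y hp.ne_zero
  have hne : f ≠ 0 := hirr.ne_zero
  have _ : Fact (Irreducible f) := ⟨hirr⟩
  have hroot : (AdjoinRoot.root f) ^ p = algebraMap L (AdjoinRoot f) y := by
    have := AdjoinRoot.eval₂_root f
    rw [hf, eval₂_sub, eval₂_X_pow, eval₂_C, sub_eq_zero] at this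
    exact this
  refine ⟨AdjoinRoot f, inferInstance, inferInstance, inferInstance, inferInstance,
    AdjoinRoot.powerBasis hne, ?_, ?_, ?_, ?_⟩
  · rw [AdjoinRoot.powerBasis_dim, hf, natDegree_X_pow_sub_C]
  · rw [AdjoinRoot.powerBasis_gen]; exact hroot
  · exact AdjoinRoot.minpoly_powerBasis_gen_of_monic hmon
  · intro ζ hζ
    have h1 : eval₂ (algebraMap L (AdjoinRoot f)) (algebraMap F (AdjoinRoot f) ζ * AdjoinRoot.root f) f = 0 := by
      have h2 : (algebraMap F (AdjoinRoot f) ζ * AdjoinRoot.root f) ^ p = algebraMap L (AdjoinRoot f) y := by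
        rw [mul_pow, ← map_pow, hζ, map_one, one_mul, hroot]
      change eval₂ (algebraMap L (AdjoinRoot f)) _ (X ^ p - C y) = 0
      rw [eval₂_sub, eval₂_X_pow, eval₂_C, h2, sub_self]
    refine ⟨AdjoinRoot.liftAlgHom f (Algebra.ofId L (AdjoinRoot f)) _ h1, ?_⟩
    rw [AdjoinRoot.powerBasis_gen]
    exact AdjoinRoot.lift_root h1

variable {M : Type u} [Field M] [Algebra F M] [Algebra L M] [IsScalarTower F L M]

/-- Elements whose `p`-th power is in the ground field are monomials in the generator. -/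
theorem kummer_monomial (p : ℕ) (hp : p.Prime) (pb : PowerBasis L M) (hdim : pb.dim = p)
    (ζ : F) (hζ : IsPrimitiveRoot ζ p) (σ : M →ₐ[L] M) (hσ : σ pb.gen = algebraMap F M ζ * pb.gen)
    (v : M) (hv : v ≠ 0) (c : L) (hc : v ^ p = algebraMap L M c) :
    ∃ (k : ℕ) (d : L), v = algebraMap L M d * pb.gen ^ k := by
  have _ : NeZero p := ⟨hp.ne_zero⟩
  have hζM : IsPrimitiveRoot (algebraMap F M ζ) p := hζ.map_of_injective (algebraMap F M).injective
  have h1 : (σ v / v) ^ p = 1 := by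
    rw [div_pow, ← map_pow, hc, AlgHom.commutes, ← hc, div_self (pow_ne_zero _ hv)]
  obtain ⟨k, hk, hk'⟩ := hζM.eq_pow_of_pow_eq_one h1
  have h2 : σ v = algebraMap F M ζ ^ k * v := by
    rw [hk', div_mul_cancel₀ _ hv]
  have hrep : v = ∑ i : Fin pb.dim, algebraMap L M (pb.basis.repr v i) * pb.gen ^ (i : ℕ) := by
    conv_lhs => rw [← pb.basis.sum_repr v]
    refine Finset.sum_congr rfl fun i _ => ?_
    rw [pb.basis_eq_pow, Algebra.smul_def]
  have hσrep : σ v = ∑ i : Fin pb.dim, (algebraMap F L ζ ^ (i : ℕ) * pb.basis.repr v i) • pb.basis i := by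
    conv_lhs => rw [hrep]
    rw [map_sum]
    refine Finset.sum_congr rfl fun i _ => ?_
    rw [map_mul, AlgHom.commutes, map_pow, hσ, pb.basis_eq_pow, Algebra.smul_def, map_mul, map_pow,
      ← IsScalarTower.algebraMap_apply, mul_pow]
    ring
  have hσrep' : σ v = ∑ i : Fin pb.dim, (algebraMap F L ζ ^ k * pb.basis.repr v i) • pb.basis i := by
    rw [h2]
    conv_lhs => rw [← pb.basis.sum_repr v, Finset.mul_sum]
    refine Finset.sum_congr rfl fun i _ => ?_
    rw [Algebra.smul_def, Algebra.smul_def, map_mul, map_pow, ← IsScalarTower.algebraMap_apply]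
    ring
  have hcoef : ∀ i : Fin pb.dim, algebraMap F L ζ ^ (i : ℕ) * pb.basis.repr v i = algebraMap F L ζ ^ k * pb.basis.repr v i := by
    have h3 := pb.basis.linearIndependent
    rw [Fintype.linearIndependent_iff] at h3
    intro i
    have h4 := h3 (fun i : Fin pb.dim => algebraMap F L ζ ^ (i : ℕ) * pb.basis.repr v i -
      algebraMap F L ζ ^ k * pb.basis.repr v i) (by
        simp only [sub_smul, Finset.sum_sub_distrib]
        rw [← hσrep, ← hσrep', sub_self]) i
    exact sub_eq_zero.1 h4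
  have hζL : IsPrimitiveRoot (algebraMap F L ζ) p := hζ.map_of_injective (algebraMap F L).injective
  have hk2 : k < pb.dim := by rw [hdim]; exact hk
  refine ⟨k, pb.basis.repr v ⟨k, hk2⟩, ?_⟩
  conv_lhs => rw [hrep]
  rw [Finset.sum_eq_single (⟨k, hk2⟩ : Fin pb.dim)]
  · intro i _ hi
    have h5 := hcoef i
    have h6 : pb.basis.repr v i = 0 := by
      by_contra hne
      have h7 := mul_right_cancel₀ hne h5
      have hi' : (i : ℕ) < p := by rw [← hdim]; exact i.2
      exact hi (Fin.ext (hζL.pow_inj hi' hk h7))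
    rw [h6, map_zero, zero_mul]
  · intro h
    exact absurd (Finset.mem_univ _) h

variable [IsAlgClosed F] [CharZero F]

/-- Purity goes up in a Kummer step. -/
theorem Pure.step {x y : L} (hx : x ≠ 0) (hy : y ≠ 0) (h : Pure x y) (p : ℕ) (hp : p.Prime)
    (pb : PowerBasis L M) (hdim : pb.dim = p) (hgen : pb.gen ^ p = algebraMap L M y)
    (hmin : minpoly L pb.gen = X ^ p - C y)
    (hσ : ∀ ζ : F, ζ ^ p = 1 → ∃ σ : M →ₐ[L] M, σ pb.gen = algebraMap F M ζ * pb.gen) :
    Pure (algebraMap L M x) pb.gen := by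
  have _ : NeZero (p : F) := ⟨Nat.cast_ne_zero.2 hp.ne_zero⟩
  intro q hq a b ⟨z, hz⟩
  have hx' : algebraMap L M x ≠ 0 := (_root_.map_ne_zero _).2 hx
  have hgen0 : pb.gen ≠ 0 := by
    intro h0
    rw [h0, zero_pow hp.ne_zero] at hgen
    exact hy ((map_eq_zero _).1 hgen.symm)
  have hnorm : Algebra.norm L pb.gen = (-1) ^ (p + 1) * y := by
    rw [Algebra.PowerBasis.norm_gen_eq_coeff_zero_minpoly, hmin, hdim]
    simp only [coeff_sub, coeff_X_pow, coeff_C_zero, if_neg hp.ne_zero.symm]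
    ring
  have _ : Module.Finite L M := pb.finite
  have hinv : ∀ u : M, Algebra.norm L u⁻¹ = (Algebra.norm L u)⁻¹ := by
    intro u
    by_cases hu : u = 0
    · rw [hu, inv_zero, Algebra.norm_zero, inv_zero]
    · refine eq_inv_of_mul_eq_one_left ?_
      rw [← map_mul, inv_mul_cancel₀ hu, map_one]
  have h1 : x ^ (a * p) * ((-1) ^ (p + 1) * y) ^ b = (Algebra.norm L z) ^ q := by
    rw [← map_pow, ← hz, map_mul, map_zpow' _ hinv, map_zpow' _ hinv, hnorm, Algebra.norm_algebraMap_of_basis pb.basis,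
      Fintype.card_fin, hdim, zpow_mul', zpow_natCast]
  obtain ⟨t, ht⟩ := IsAlgClosed.exists_pow_nat_eq (((-1 : F) ^ (p + 1)) ^ b) hq.pos
  have ht0 : t ≠ 0 := by
    intro h0
    rw [h0, zero_pow hq.ne_zero] at ht
    exact zpow_ne_zero b (pow_ne_zero (p + 1) (neg_ne_zero.2 one_ne_zero)) ht.symm
  have htL : (algebraMap F L t) ^ q = ((-1 : L) ^ (p + 1)) ^ b := by
    rw [← map_pow, ht, map_zpow₀, map_pow, map_neg, map_one]
  have htL0 : algebraMap F L t ≠ 0 := (_root_.map_ne_zero _).2 ht0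
  have h2 : x ^ (a * p) * y ^ b = (Algebra.norm L z / algebraMap F L t) ^ q := by
    rw [div_pow, ← h1, mul_zpow, ← htL]
    field_simp
  obtain ⟨h3, h4⟩ := h q hq _ _ ⟨_, h2⟩
  refine ⟨?_, h4⟩
  by_cases hqp : q = p
  · subst hqp
    obtain ⟨b', rfl⟩ := h4
    have h5 : (algebraMap L M x) ^ a = (z * pb.gen ^ (-b')) ^ q := by
      rw [mul_pow, ← hz, mul_assoc, ← zpow_natCast (pb.gen ^ (-b')), ← zpow_mul, ← zpow_add₀ hgen0]
      have : (q : ℤ) * b' + -b' * q = 0 := by ring
      rw [this, zpow_zero, mul_one]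
    have hne : z * pb.gen ^ (-b') ≠ 0 := by
      intro h0
      rw [h0, zero_pow hq.ne_zero] at h5
      exact zpow_ne_zero a hx' h5
    obtain ⟨ζ, hζ⟩ := HasEnoughRootsOfUnity.exists_primitiveRoot F q
    obtain ⟨σ, hσ'⟩ := hσ ζ hζ.pow_eq_one
    obtain ⟨k, d, hd⟩ := kummer_monomial q hq pb hdim ζ hζ σ hσ' _ hne (x ^ a) (by
      rw [← h5, map_zpow₀])
    have h6 : x ^ a = d ^ q * y ^ k := by
      apply (algebraMap L M).injective
      rw [map_zpow₀, h5, hd, mul_pow, map_mul, map_pow, map_pow, ← hgen, ← pow_mul, ← pow_mul,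
        mul_comm k q]
    refine (h q hq a (-(k : ℤ)) ⟨d, ?_⟩).1
    rw [h6, zpow_neg, zpow_natCast, mul_assoc, mul_inv_cancel₀ (pow_ne_zero _ hy), mul_one]
  · rcases (Nat.prime_iff_prime_int.1 hq).dvd_or_dvd h3 with h7 | h7
    · exact h7
    · exact absurd ((Nat.prime_dvd_prime_iff_eq hq hp).1 (by exact_mod_cast h7)) hqp

end step

end Pool.Agent.MP743d1e.CZ
end

section
/-!
# RIG: from infinitely many exponent vectors with the same relations to rational vectors
-/
set_option autoImplicit false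

namespace MP743d1e.CZ

open scoped BigOperators

namespace RIGM

/-- the scalar product -/
def dt (b d : ℤ × ℤ) : ℤ := b.1 * d.1 + b.2 * d.2

/-- the scalar product -/
def dq (b : ℤ × ℤ) (q : ℚ × ℚ) : ℚ := b.1 * q.1 + b.2 * q.2

lemma dq_cast (b d : ℤ × ℤ) : dq b ((d.1 : ℚ), (d.2 : ℚ)) = (dt b d : ℤ) := by
  unfold dq dt
  push_cast
  ring

/-- two primitive vectors with zero determinant are equal up to sign -/
lemma parallel {b b' : ℤ × ℤ} (h : IsCoprime b.1 b.2) (h' : IsCoprime b'.1 b'.2)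
    (hd : b.1 * b'.2 - b.2 * b'.1 = 0) : b' = b ∨ b' = -b := by
  obtain ⟨u, v, huv⟩ := h
  obtain ⟨u', v', huv'⟩ := h'
  obtain ⟨s, hs⟩ : ∃ s, s = u * b'.1 + v * b'.2 := ⟨_, rfl⟩
  have h1 : b'.1 = s * b.1 := by rw [hs]; linear_combination (-b'.1) * huv - v * hd
  have h2 : b'.2 = s * b.2 := by rw [hs]; linear_combination (-b'.2) * huv + u * hd
  have h3 : s * (u' * b.1 + v' * b.2) = 1 := by
    rw [← huv', h1, h2]; ring
  rcases Int.isUnit_iff.1 (IsUnit.of_mul_eq_one _ h3) with h4 | h4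
  · left
    rw [h4] at h1 h2
    exact Prod.ext (by simpa using h1) (by simpa using h2)
  · right
    rw [h4] at h1 h2
    exact Prod.ext (by simpa using h1) (by simpa using h2)

/-- an infinite set of primitive vectors contains two that are not parallel -/
lemma exists_nonparallel {A : Set (ℤ × ℤ)} (hA : A.Infinite)
    (hp : ∀ b ∈ A, IsCoprime b.1 b.2) :
    ∃ b₁ ∈ A, ∃ b₂ ∈ A, b₁.1 * b₂.2 - b₁.2 * b₂.1 ≠ 0 := by
  obtain ⟨b₁, hb₁⟩ := hA.nonempty
  refine ⟨b₁, hb₁, ?_⟩
  by_contra hh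
  push Not at hh
  apply hA
  refine Set.Finite.subset (Set.toFinite {b₁, -b₁}) fun b hb => ?_
  rcases parallel (hp b₁ hb₁) (hp b hb) (hh b hb) with h | h
  · left; exact h
  · right; exact h

variable {K : Type} [Field K]

/-- the kernel: `δ` satisfies the relations with `b = 0` -/
lemma const {r : ℕ} {D : Finset (ℤ × ℤ)} {b : ℤ × ℤ} {m : Fin r → ℤ} {c c' : Fin r → K}
    (hm : Function.Injective m) (hc : ∀ i, c i ≠ 0) (hc' : ∀ i, c' i ≠ 0)
    (hz : ∀ e : ℤ, (∀ d ∈ D, e ≠ dt b d) →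
      ∑ i, ∑ j, (if m i - m j = e then c i * c' j else 0) = 0)
    (δ : Fin r → ℚ) (h1 : ∀ i j k l, m i - m j = m k - m l → δ i - δ j = δ k - δ l)
    (h2 : ∀ i j, ∀ d ∈ D, m i - m j = dt b d → δ i = δ j) (i j : Fin r) : δ i = δ j := by
  classical
  by_contra hne
  have hne' : (Finset.univ : Finset (Fin r)).Nonempty := ⟨i, Finset.mem_univ i⟩
  obtain ⟨p, -, hp⟩ := Finset.exists_max_image Finset.univ δ hne'
  obtain ⟨n, -, hn⟩ := Finset.exists_min_image Finset.univ δ hne'
  have hpn : δ n < δ p := by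
    have a1 := hp i (Finset.mem_univ i)
    have a2 := hp j (Finset.mem_univ j)
    have a3 := hn i (Finset.mem_univ i)
    have a4 := hn j (Finset.mem_univ j)
    rcases lt_or_gt_of_ne hne with h | h <;> linarith
  obtain ⟨p', hp'1, hp'2⟩ := Finset.exists_max_image (Finset.univ.filter fun k => δ k = δ p) m
    ⟨p, Finset.mem_filter.2 ⟨Finset.mem_univ p, rfl⟩⟩
  obtain ⟨n', hn'1, hn'2⟩ := Finset.exists_min_image (Finset.univ.filter fun k => δ k = δ n) m
    ⟨n, Finset.mem_filter.2 ⟨Finset.mem_univ n, rfl⟩⟩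
  have hp'3 : δ p' = δ p := (Finset.mem_filter.1 hp'1).2
  have hn'3 : δ n' = δ n := (Finset.mem_filter.1 hn'1).2
  have h3 := hz (m p' - m n') (fun d hd h => by
    have := h2 p' n' d hd h
    rw [hp'3, hn'3] at this
    exact hpn.ne' this)
  have h4 : ∀ k l, m k - m l = m p' - m n' → k = p' ∧ l = n' := by
    intro k l hkl
    have h5 := h1 k l p' n' hkl
    rw [hp'3, hn'3] at h5
    have a1 := hp k (Finset.mem_univ k)
    have a2 := hn l (Finset.mem_univ l)
    have h6 : δ k = δ p := by linarith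
    have h7 : δ l = δ n := by linarith
    have h8 := hp'2 k (Finset.mem_filter.2 ⟨Finset.mem_univ k, h6⟩)
    have h9 := hn'2 l (Finset.mem_filter.2 ⟨Finset.mem_univ l, h7⟩)
    exact ⟨hm (by omega), hm (by omega)⟩
  rw [Finset.sum_eq_single p', Finset.sum_eq_single n'] at h3
  · rw [if_pos rfl] at h3
    exact mul_ne_zero (hc p') (hc' n') h3
  · intro l _ hl
    rw [if_neg fun h => hl (h4 p' l h).2]
  · intro h
    exact absurd (Finset.mem_univ n') h
  · intro k _ hk
    refine Finset.sum_eq_zero fun l _ => ?_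
    rw [if_neg fun h => hk (h4 k l h).1]
  · intro h
    exact absurd (Finset.mem_univ p') h

end RIGM

open RIGM in
/-- RIG -/
theorem rig {K : Type} [Field K] (r : ℕ) (D : Finset (ℤ × ℤ)) (A : Set (ℤ × ℤ)) (hA : A.Infinite)
    (hprim : ∀ b ∈ A, IsCoprime b.1 b.2) (m : ℤ × ℤ → Fin r → ℤ) (c c' : ℤ × ℤ → Fin r → K)
    (hm : ∀ b ∈ A, Function.Injective (m b)) (hc : ∀ b ∈ A, ∀ i, c b i ≠ 0)
    (hc' : ∀ b ∈ A, ∀ i, c' b i ≠ 0)
    (hz : ∀ b ∈ A, ∀ e : ℤ, (∀ d ∈ D, e ≠ dt b d) →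
      ∑ i, ∑ j, (if m b i - m b j = e then c b i * c' b j else 0) = 0) :
    ∃ A' ⊆ A, A'.Infinite ∧ ∃ q : Fin r → ℚ × ℚ, ∀ b ∈ A',
      (∀ i j, ((m b i - m b j : ℤ) : ℚ) = dq b (q i - q j)) ∧
      (∀ i j k l, m b i - m b j = m b k - m b l ↔ q i - q j = q k - q l) ∧
      ∀ i j, ∀ d ∈ D, m b i - m b j = dt b d ↔ q i - q j = ((d.1 : ℚ), (d.2 : ℚ)) := by
  classical
  -- the relations
  obtain ⟨R, hR⟩ : ∃ R : A → (Set (Fin r × Fin r × Fin r × Fin r)) × (Set (Fin r × Fin r × D)),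
      ∀ b, R b = ({x | m b x.1 - m b x.2.1 = m b x.2.2.1 - m b x.2.2.2},
        {x | m b x.1 - m b x.2.1 = dt b x.2.2}) := ⟨_, fun b => rfl⟩
  have : Infinite A := hA.to_subtype
  obtain ⟨R₀, hR₀⟩ := Finite.exists_infinite_fiber R
  obtain ⟨A', hA'⟩ : ∃ A' : Set (ℤ × ℤ), A' = Subtype.val '' (R ⁻¹' {R₀}) := ⟨_, rfl⟩
  have hinf : A'.Infinite := by
    rw [hA']
    exact (Set.infinite_coe_iff.1 hR₀).image Subtype.val_injective.injOn
  have hsub : A' ⊆ A := by
    rw [hA']
    rintro _ ⟨b, -, rfl⟩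
    exact b.2
  have hrel1 : ∀ b ∈ A', ∀ b' ∈ A', ∀ i j k l, m b i - m b j = m b k - m b l →
      m b' i - m b' j = m b' k - m b' l := by
    rw [hA']
    rintro _ ⟨b, hb, rfl⟩ _ ⟨b', hb', rfl⟩ i j k l h
    have h1 : R b = R b' := by
      rw [Set.mem_preimage, Set.mem_singleton_iff] at hb hb'
      rw [hb, hb']
    rw [hR, hR] at h1
    have h2 := (Prod.ext_iff.1 h1).1
    have h3 : (i, j, k, l) ∈ ({x | m b x.1 - m b x.2.1 = m b x.2.2.1 - m b x.2.2.2} :
      Set (Fin r × Fin r × Fin r × Fin r)) := h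
    have h4 : ({x | m b x.1 - m b x.2.1 = m b x.2.2.1 - m b x.2.2.2} :
      Set (Fin r × Fin r × Fin r × Fin r)) = {x | m b' x.1 - m b' x.2.1 = m b' x.2.2.1 - m b' x.2.2.2} := h2
    rw [h4] at h3
    exact h3
  have hrel2 : ∀ b ∈ A', ∀ b' ∈ A', ∀ i j, ∀ d ∈ D, m b i - m b j = dt b d →
      m b' i - m b' j = dt b' d := by
    rw [hA']
    rintro _ ⟨b, hb, rfl⟩ _ ⟨b', hb', rfl⟩ i j d hd h
    have h1 : R b = R b' := by
      rw [Set.mem_preimage, Set.mem_singleton_iff] at hb hb'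
      rw [hb, hb']
    rw [hR, hR] at h1
    have h2 := (Prod.ext_iff.1 h1).2
    have h3 : (i, j, (⟨d, hd⟩ : D)) ∈ ({x | m b x.1 - m b x.2.1 = dt b x.2.2} :
      Set (Fin r × Fin r × D)) := h
    have h4 : ({x | m b x.1 - m b x.2.1 = dt b x.2.2} :
      Set (Fin r × Fin r × D)) = {x | m b' x.1 - m b' x.2.1 = dt b' x.2.2} := h2
    rw [h4] at h3
    exact h3
  obtain ⟨b₁, hb₁, b₂, hb₂, hdet⟩ := exists_nonparallel hinf (fun b hb => hprim b (hsub hb))
  obtain ⟨Δ, hΔ⟩ : ∃ Δ : ℚ, Δ = b₁.1 * b₂.2 - b₁.2 * b₂.1 := ⟨_, rfl⟩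
  have hΔ0 : Δ ≠ 0 := by
    rw [hΔ]
    exact_mod_cast hdet
  -- coefficients of `b` in terms of `b₁`, `b₂`
  obtain ⟨s, hs⟩ : ∃ s : ℤ × ℤ → ℚ, ∀ b, s b = (b.1 * b₂.2 - b.2 * b₂.1) / Δ := ⟨_, fun b => rfl⟩
  obtain ⟨t, ht⟩ : ∃ t : ℤ × ℤ → ℚ, ∀ b, t b = (b₁.1 * b.2 - b₁.2 * b.1) / Δ := ⟨_, fun b => rfl⟩
  have hb_1 : ∀ b : ℤ × ℤ, (b.1 : ℚ) = s b * b₁.1 + t b * b₂.1 := by
    intro b
    rw [hs, ht]
    field_simp
    rw [hΔ]
    ring
  have hb_2 : ∀ b : ℤ × ℤ, (b.2 : ℚ) = s b * b₁.2 + t b * b₂.2 := by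
    intro b
    rw [hs, ht]
    field_simp
    rw [hΔ]
    ring
  have hdt : ∀ b d : ℤ × ℤ, (dt b d : ℚ) = s b * dt b₁ d + t b * dt b₂ d := by
    intro b d
    unfold dt
    push_cast
    rw [hb_1 b, hb_2 b]
    ring
  -- `m b` is a combination, up to a constant
  have hcomb : ∀ b ∈ A', ∀ i j, ((m b i - m b j : ℤ) : ℚ) =
      s b * (m b₁ i - m b₁ j : ℤ) + t b * (m b₂ i - m b₂ j : ℤ) := by
    intro b hb i j
    have h1 := const (hm b (hsub hb)) (hc b (hsub hb)) (hc' b (hsub hb)) (hz b (hsub hb))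
      (fun i => (m b i : ℚ) - s b * m b₁ i - t b * m b₂ i) (fun i j k l h => by
        have a1 : (m b i : ℚ) - m b j = m b k - m b l := by exact_mod_cast h
        have a2 : (m b₁ i : ℚ) - m b₁ j = m b₁ k - m b₁ l := by
          exact_mod_cast hrel1 b hb b₁ hb₁ i j k l h
        have a3 : (m b₂ i : ℚ) - m b₂ j = m b₂ k - m b₂ l := by
          exact_mod_cast hrel1 b hb b₂ hb₂ i j k l h
        linear_combination a1 - s b * a2 - t b * a3)
      (fun i j d hd h => by
        have a1 : (m b i : ℚ) - m b j = dt b d := by exact_mod_cast h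
        have a2 : (m b₁ i : ℚ) - m b₁ j = dt b₁ d := by
          exact_mod_cast hrel2 b hb b₁ hb₁ i j d hd h
        have a3 : (m b₂ i : ℚ) - m b₂ j = dt b₂ d := by
          exact_mod_cast hrel2 b hb b₂ hb₂ i j d hd h
        linear_combination a1 - s b * a2 - t b * a3 + hdt b d) i j
    push_cast
    linear_combination h1
  -- the vectors
  obtain ⟨q, hq⟩ : ∃ q : Fin r → ℚ × ℚ, ∀ j, q j =
      ((b₂.2 * m b₁ j - b₁.2 * m b₂ j) / Δ, (b₁.1 * m b₂ j - b₂.1 * m b₁ j) / Δ) :=
    ⟨_, fun j => rfl⟩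
  have hqd : ∀ b i j, dq b (q i - q j) =
      s b * (m b₁ i - m b₁ j : ℤ) + t b * (m b₂ i - m b₂ j : ℤ) := by
    intro b i j
    unfold dq
    rw [hq, hq, hs, ht, Prod.mk_sub_mk]
    push_cast
    field_simp
    ring
  have hzero : ∀ x : ℚ × ℚ, dq b₁ x = 0 → dq b₂ x = 0 → x = 0 := by
    intro x h1 h2
    unfold dq at h1 h2
    have e1 : Δ * x.1 = 0 := by rw [hΔ]; linear_combination b₂.2 * h1 - b₁.2 * h2
    have e2 : Δ * x.2 = 0 := by rw [hΔ]; linear_combination b₁.1 * h2 - b₂.1 * h1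
    refine Prod.ext ?_ ?_
    · exact (mul_eq_zero.1 e1).resolve_left hΔ0
    · exact (mul_eq_zero.1 e2).resolve_left hΔ0
  have hdq_sub : ∀ (b : ℤ × ℤ) (x y : ℚ × ℚ), dq b (x - y) = dq b x - dq b y := by
    intro b x y
    unfold dq
    simp only [Prod.fst_sub, Prod.snd_sub]
    ring
  have hmain : ∀ b ∈ A', ∀ i j, ((m b i - m b j : ℤ) : ℚ) = dq b (q i - q j) :=
    fun b hb i j => (hcomb b hb i j).trans (hqd b i j).symm
  refine ⟨A', hsub, hinf, q, fun b hb => ⟨hmain b hb, ?_, ?_⟩⟩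
  · intro i j k l
    constructor
    · intro h
      have a1 := hrel1 b hb b₁ hb₁ i j k l h
      have a2 := hrel1 b hb b₂ hb₂ i j k l h
      have e1 := hmain b₁ hb₁ i j
      rw [a1, hmain b₁ hb₁ k l] at e1
      have e2 := hmain b₂ hb₂ i j
      rw [a2, hmain b₂ hb₂ k l] at e2
      have e3 := hzero (q i - q j - (q k - q l)) (by rw [hdq_sub, e1, sub_self])
        (by rw [hdq_sub, e2, sub_self])
      exact sub_eq_zero.1 e3
    · intro h
      have e1 := hmain b hb i j
      rw [h, ← hmain b hb k l] at e1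
      exact_mod_cast e1
  · intro i j d hd
    constructor
    · intro h
      have a1 := hrel2 b hb b₁ hb₁ i j d hd h
      have a2 := hrel2 b hb b₂ hb₂ i j d hd h
      have e1 := hmain b₁ hb₁ i j
      rw [a1, ← dq_cast] at e1
      have e2 := hmain b₂ hb₂ i j
      rw [a2, ← dq_cast] at e2
      have e3 := hzero (q i - q j - ((d.1 : ℚ), (d.2 : ℚ))) (by rw [hdq_sub, e1, sub_self])
        (by rw [hdq_sub, e2, sub_self])
      exact sub_eq_zero.1 e3
    · intro h
      have e1 := hmain b hb i j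
      rw [h, dq_cast] at e1
      exact_mod_cast e1

end MP743d1e.CZ
end

section
/-! The kernel of the evaluation in a tower of Kummer extensions. -/
set_option autoImplicit false

universe u v

namespace Pool.Agent.MP743d1e.CZ

open Polynomial

section ev

variable (F : Type v) {L : Type u} [Field F] [Field L] [Algebra F L]

/-- The character `k ↦ x^k.1 y^k.2`. -/
def chi (x y : Lˣ) : Multiplicative (ℤ × ℤ) →* L where
  toFun k := ((x ^ (k.toAdd).1 * y ^ (k.toAdd).2 : Lˣ) : L)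
  map_one' := by simp
  map_mul' a b := by
    rw [← Units.val_mul]
    congr 1
    simp only [toAdd_mul, Prod.fst_add, Prod.snd_add, zpow_add]
    exact mul_mul_mul_comm _ _ _ _

/-- The evaluation of Laurent polynomials. -/
noncomputable def ev (x y : Lˣ) : AddMonoidAlgebra F (ℤ × ℤ) →ₐ[F] L :=
  AddMonoidAlgebra.lift F L (ℤ × ℤ) (chi x y)

theorem ev_apply (x y : Lˣ) (A : AddMonoidAlgebra F (ℤ × ℤ)) :
    ev F x y A = A.coeff.sum fun k c => algebraMap F L c * (((x ^ k.1 * y ^ k.2 : Lˣ)) : L) := rfl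

theorem ev_single (x y : Lˣ) (k : ℤ × ℤ) (c : F) :
    ev F x y (AddMonoidAlgebra.single k c) = algebraMap F L c * (((x ^ k.1 * y ^ k.2 : Lˣ)) : L) := by
  rw [ev, AddMonoidAlgebra.lift_single, Algebra.smul_def]
  rfl

/-- `z_2 ↦ z_2^m`. -/
noncomputable def phi (m : ℤ) : AddMonoidAlgebra F (ℤ × ℤ) →+* AddMonoidAlgebra F (ℤ × ℤ) :=
  AddMonoidAlgebra.mapDomainRingHom F
    ((AddMonoidHom.id ℤ).prodMap (DistribSMul.toAddMonoidHom ℤ m) : ℤ × ℤ →+ ℤ × ℤ)

/-- The exchange of the variables. -/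
noncomputable def swp : AddMonoidAlgebra F (ℤ × ℤ) →+* AddMonoidAlgebra F (ℤ × ℤ) :=
  AddMonoidAlgebra.mapDomainRingHom F ((AddMonoidHom.snd ℤ ℤ).prod (AddMonoidHom.fst ℤ ℤ))

theorem phi_single (m : ℤ) (k : ℤ × ℤ) (c : F) :
    phi F m (AddMonoidAlgebra.single k c) = AddMonoidAlgebra.single (k.1, m * k.2) c := by
  rw [phi, AddMonoidAlgebra.mapDomainRingHom_apply, AddMonoidAlgebra.mapDomain_single]
  rfl

theorem swp_single (k : ℤ × ℤ) (c : F) :
    swp F (AddMonoidAlgebra.single k c) = AddMonoidAlgebra.single (k.2, k.1) c := by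
  rw [swp, AddMonoidAlgebra.mapDomainRingHom_apply, AddMonoidAlgebra.mapDomain_single]
  rfl

theorem swp_swp (A : AddMonoidAlgebra F (ℤ × ℤ)) : swp F (swp F A) = A := by
  induction A using AddMonoidAlgebra.induction_linear with
  | zero => rw [map_zero, map_zero]
  | add a b ha hb => rw [map_add, map_add, ha, hb]
  | single k c => rw [swp_single, swp_single]

theorem phi_phi (m n : ℤ) (A : AddMonoidAlgebra F (ℤ × ℤ)) : phi F m (phi F n A) = phi F (m * n) A := by
  induction A using AddMonoidAlgebra.induction_linear with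
  | zero => rw [map_zero, map_zero, map_zero]
  | add a b ha hb => rw [map_add, map_add, map_add, ha, hb]
  | single k c => rw [phi_single, phi_single, phi_single, mul_assoc]

theorem phi_one (A : AddMonoidAlgebra F (ℤ × ℤ)) : phi F 1 A = A := by
  induction A using AddMonoidAlgebra.induction_linear with
  | zero => rw [map_zero]
  | add a b ha hb => rw [map_add, ha, hb]
  | single k c => rw [phi_single, one_mul]

/-- The data of the tower: nonzero pure `x`, `y`, with the kernel of the evaluation generated by `P`. -/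
structure Tow {L : Type u} [Field L] [Algebra F L] (x y : Lˣ) (P : AddMonoidAlgebra F (ℤ × ℤ)) : Prop where
  pure : Pure (x : L) (y : L)
  ker : ∀ A, ev F x y A = 0 ↔ P ∣ A

variable {F}

theorem ev_swp (x y : Lˣ) (A : AddMonoidAlgebra F (ℤ × ℤ)) : ev F y x (swp F A) = ev F x y A := by
  induction A using AddMonoidAlgebra.induction_linear with
  | zero => rw [map_zero, map_zero, map_zero]
  | add a b ha hb => rw [map_add, map_add, map_add, ha, hb]
  | single k c => rw [swp_single, ev_single, ev_single, mul_comm (y ^ _)]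

theorem Tow.swap {x y : Lˣ} {P : AddMonoidAlgebra F (ℤ × ℤ)} (h : Tow F x y P) : Tow F y x (swp F P) := by
  refine ⟨h.pure.swap, fun A => ?_⟩
  have h1 : ev F y x A = ev F x y (swp F A) := by
    rw [ev_swp]
  rw [h1, h.ker]
  constructor
  · rintro ⟨B, hB⟩
    exact ⟨swp F B, by rw [← map_mul, ← hB, swp_swp]⟩
  · rintro ⟨B, hB⟩
    exact ⟨swp F B, by rw [hB, map_mul, swp_swp]⟩

/-- The decomposition in residue classes modulo `p` of the second exponent. -/
theorem exists_decomp (p : ℕ) (hp : 0 < p) (A : AddMonoidAlgebra F (ℤ × ℤ)) :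
    ∃ B : Fin p → AddMonoidAlgebra F (ℤ × ℤ),
      A = ∑ i : Fin p, AddMonoidAlgebra.single (0, ((i : ℕ) : ℤ)) 1 * phi F p (B i) := by
  classical
  induction A using AddMonoidAlgebra.induction_linear with
  | zero => exact ⟨fun _ => 0, by simp⟩
  | add a b ha hb =>
    obtain ⟨B, hB⟩ := ha
    obtain ⟨B', hB'⟩ := hb
    refine ⟨fun i => B i + B' i, ?_⟩
    conv_lhs => rw [hB, hB', ← Finset.sum_add_distrib]
    refine Finset.sum_congr rfl fun i _ => ?_
    rw [map_add, mul_add]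
  | single k c =>
    have hp' : (0 : ℤ) < p := by exact_mod_cast hp
    have h1 : 0 ≤ k.2 % (p : ℤ) := Int.emod_nonneg _ hp'.ne'
    have h2 : k.2 % (p : ℤ) < p := Int.emod_lt_of_pos _ hp'
    have h3 : (k.2 % (p : ℤ)).toNat < p := by omega
    refine ⟨fun i => if i = ⟨_, h3⟩ then AddMonoidAlgebra.single (k.1, k.2 / (p : ℤ)) c else 0, ?_⟩
    rw [Finset.sum_eq_single (⟨_, h3⟩ : Fin p)]
    · beta_reduce
      rw [if_pos rfl, phi_single, AddMonoidAlgebra.single_mul_single, one_mul]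
      congr 1
      refine Prod.ext (by simp) ?_
      simp only [Prod.snd_add]
      rw [Int.toNat_of_nonneg h1]
      exact (Int.emod_add_mul_ediv _ _).symm
    · intro i _ hi
      beta_reduce
      rw [if_neg hi, map_zero, mul_zero]
    · intro h
      exact absurd (Finset.mem_univ _) h

theorem ev_phi {M : Type u} [Field M] [Algebra F M] [Algebra L M] [IsScalarTower F L M]
    (x y : Lˣ) (w : Mˣ) (p : ℕ) (hw : (w : M) ^ p = algebraMap L M y) (A : AddMonoidAlgebra F (ℤ × ℤ)) :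
    ev F (Units.map (algebraMap L M).toMonoidHom x) w (phi F p A) = algebraMap L M (ev F x y A) := by
  have hw' : w ^ p = Units.map (algebraMap L M).toMonoidHom y := Units.ext (by simpa using hw)
  induction A using AddMonoidAlgebra.induction_linear with
  | zero => rw [map_zero, map_zero, map_zero, map_zero]
  | add a b ha hb => rw [map_add, map_add, map_add, map_add, ha, hb]
  | single k c =>
    rw [phi_single, ev_single, ev_single, map_mul, ← IsScalarTower.algebraMap_apply]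
    congr 1
    rw [zpow_mul, zpow_natCast, hw', ← map_zpow, ← map_zpow, ← map_mul]
    rfl

variable [IsAlgClosed F] [CharZero F]

theorem Tow.prime {x y : Lˣ} {P : AddMonoidAlgebra F (ℤ × ℤ)} (h : Tow F x y P) (p : ℕ) (hp : p.Prime) :
    ∃ (M : Type u) (_ : Field M) (_ : Algebra F M) (x' y' : Mˣ), Tow F x' y' (phi F p P) := by
  obtain ⟨M, _, _, _, _, pb, hdim, hgen, hmin, hσ⟩ := kummer_exists (F := F) p hp (y : L)
    (h.pure.not_pow p hp)
  have hgen0 : pb.gen ≠ 0 := by
    intro h0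
    rw [h0, zero_pow hp.ne_zero] at hgen
    exact y.ne_zero ((_root_.map_eq_zero _).1 hgen.symm)
  refine ⟨M, inferInstance, inferInstance, Units.map (algebraMap L M).toMonoidHom x,
    Units.mk0 pb.gen hgen0, ?_, fun A => ⟨fun hA => ?_, ?_⟩⟩
  · exact Pure.step x.ne_zero y.ne_zero h.pure p hp pb hdim hgen hmin hσ
  · obtain ⟨B, hB⟩ := exists_decomp p hp.pos A
    have h1 : ∑ i : Fin p, (ev F x y (B i)) • pb.basis (Fin.cast hdim.symm i) = 0 := by
      rw [← hA, hB, map_sum]
      refine Finset.sum_congr rfl fun i _ => ?_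
      rw [map_mul, ev_phi x y (Units.mk0 pb.gen hgen0) p hgen, ev_single, pb.basis_eq_pow,
        Algebra.smul_def, mul_comm]
      simp
    have h2 : ∀ i : Fin p, ev F x y (B i) = 0 := by
      have h3 := pb.basis.linearIndependent
      rw [Fintype.linearIndependent_iff] at h3
      have h4 : ∑ i : Fin pb.dim, (ev F x y (B (Fin.cast hdim i))) • pb.basis i = 0 := by
        rw [← h1]
        refine Fintype.sum_equiv (finCongr hdim) _ _ fun i => ?_
        rfl
      intro i
      have h5 := h3 _ h4 (Fin.cast hdim.symm i)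
      simpa using h5
    rw [hB]
    refine Finset.dvd_sum fun i _ => ?_
    exact dvd_mul_of_dvd_right (map_dvd _ ((h.ker _).1 (h2 i))) _
  · rintro ⟨B, rfl⟩
    rw [map_mul, ev_phi x y (Units.mk0 pb.gen hgen0) p hgen, (h.ker P).2 dvd_rfl, map_zero, zero_mul]

theorem Tow.all (N : ℕ) : 0 < N → ∀ (L : Type u) [Field L] [Algebra F L] (x y : Lˣ)
    (P : AddMonoidAlgebra F (ℤ × ℤ)), Tow F x y P →
    ∃ (M : Type u) (_ : Field M) (_ : Algebra F M) (x' y' : Mˣ), Tow F x' y' (phi F N P) := by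
  induction N using Nat.recOnMul with
  | zero => intro h; exact absurd h (lt_irrefl _)
  | one =>
    intro _ L _ _ x y P h
    exact ⟨L, inferInstance, inferInstance, x, y, by rwa [Nat.cast_one, phi_one]⟩
  | prime p hp =>
    intro _ L _ _ x y P h
    exact h.prime p hp
  | mul a b ha hb =>
    intro hab L _ _ x y P h
    obtain ⟨M, _, _, x', y', h'⟩ := hb (Nat.pos_of_mul_pos_left hab) L x y P h
    obtain ⟨M', _, _, x'', y'', h''⟩ := ha (Nat.pos_of_mul_pos_right hab) M x' y' _ h'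
    refine ⟨M', inferInstance, inferInstance, x'', y'', ?_⟩
    rwa [phi_phi, ← Nat.cast_mul] at h''

theorem Tow.both (N : ℕ) (hN : 0 < N) (L : Type u) [Field L] [Algebra F L] (x y : Lˣ)
    (P : AddMonoidAlgebra F (ℤ × ℤ)) (h : Tow F x y P) :
    ∃ (M : Type u) (_ : Field M) (_ : Algebra F M) (x' y' : Mˣ),
      Tow F x' y' (AddMonoidAlgebra.mapDomainRingHom F (DistribSMul.toAddMonoidHom (ℤ × ℤ) (N : ℤ)) P) := by
  obtain ⟨M, _, _, x', y', h'⟩ := Tow.all N hN L x y P h
  obtain ⟨M', _, _, x'', y'', h''⟩ := Tow.all N hN M y' x' _ h'.swap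
  refine ⟨M', inferInstance, inferInstance, y'', x'', ?_⟩
  have key : swp F (phi F N (swp F (phi F N P))) =
      AddMonoidAlgebra.mapDomainRingHom F (DistribSMul.toAddMonoidHom (ℤ × ℤ) (N : ℤ)) P := by
    clear h h' h''
    induction P using AddMonoidAlgebra.induction_linear with
    | zero => simp only [map_zero]
    | add a b ha hb => simp only [map_add, ha, hb]
    | single k c =>
      rw [phi_single, swp_single, phi_single, swp_single, AddMonoidAlgebra.mapDomainRingHom_apply,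
        AddMonoidAlgebra.mapDomain_single]
      rfl
  rw [← key]
  exact h''.swap

omit [IsAlgClosed F] [CharZero F] in
theorem Tow.isPrime {x y : Lˣ} {P : AddMonoidAlgebra F (ℤ × ℤ)} (h : Tow F x y P) (hP : P ≠ 0) :
    Prime P := by
  refine ⟨hP, fun hu => ?_, fun a b hab => ?_⟩
  · have h1 : ev F x y 1 = 0 := (h.ker 1).2 hu.dvd
    rw [map_one] at h1
    exact one_ne_zero h1
  · have h1 := (h.ker _).2 hab
    rw [map_mul, mul_eq_zero] at h1
    exact h1.imp (h.ker a).1 (h.ker b).1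

/-- `P(z^N)` is prime over the algebraically closed field `F`. -/
theorem Tow.prime_pow {x y : Lˣ} {P : AddMonoidAlgebra F (ℤ × ℤ)} (h : Tow F x y P) (hP : P ≠ 0)
    (N : ℕ) (hN : 0 < N) :
    Prime (AddMonoidAlgebra.mapDomainRingHom F (DistribSMul.toAddMonoidHom (ℤ × ℤ) (N : ℤ)) P) := by
  obtain ⟨M, _, _, x', y', h'⟩ := Tow.both N hN L x y P h
  refine h'.isPrime ?_
  intro h0
  apply hP
  rw [AddMonoidAlgebra.mapDomainRingHom_apply] at h0
  refine AddMonoidAlgebra.mapDomain_injective ?_ (h0.trans (AddMonoidAlgebra.mapDomain_zero _).symm)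
  intro a b hab
  have hN' : (N : ℤ) ≠ 0 := by exact_mod_cast hN.ne'
  exact smul_right_injective (ℤ × ℤ) hN' hab

end ev

end Pool.Agent.MP743d1e.CZ
end

section
/-!
# TWO: from one variable to two variables and back
-/
set_option autoImplicit false

namespace MP743d1e.CZ

open scoped BigOperators
open AddMonoidAlgebra RIGM

namespace TWOM

section Alg

variable {K : Type} [Field K] {Γ Γ' : Type} [AddCommGroup Γ] [AddCommGroup Γ']

/-- twisted functoriality: `single v x ↦ single (g v) (φ x * χ v)` -/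
noncomputable def tw (φ : K →+* K) (g : Γ →+ Γ') (χ : Multiplicative Γ →* Kˣ) :
    AddMonoidAlgebra K Γ →+* AddMonoidAlgebra K Γ' :=
  liftNCRingHom (singleZeroRingHom.comp φ)
    { toFun := fun v => single (g (Multiplicative.toAdd v)) ((χ v : Kˣ) : K)
      map_one' := by simp [one_def]
      map_mul' := fun u v => by simp [single_mul_single] } (fun x y => Commute.all _ _)

lemma tw_single (φ : K →+* K) (g : Γ →+ Γ') (χ : Multiplicative Γ →* Kˣ) (v : Γ) (x : K) :
    tw φ g χ (single v x) = single (g v) (φ x * (χ (Multiplicative.ofAdd v) : Kˣ)) := by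
  unfold tw
  rw [liftNCRingHom_single]
  show single 0 (φ x) * single (g v) _ = _
  rw [single_mul_single, zero_add]

/-- the involution -/
noncomputable def st (cj : K →+* K) (Γ : Type) [AddCommGroup Γ] :
    AddMonoidAlgebra K Γ →+* AddMonoidAlgebra K Γ :=
  tw cj (-AddMonoidHom.id Γ) 1

lemma st_single (cj : K →+* K) (v : Γ) (x : K) :
    st cj Γ (single v x) = single (-v) (cj x) := by
  unfold st
  rw [tw_single]
  simp

omit [AddCommGroup Γ] in
lemma eq_sum (X : AddMonoidAlgebra K Γ) :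
    X = ∑ u ∈ X.coeff.support, single u (X.coeff u) := by
  classical
  apply coeff_injective
  rw [coeff_sum]
  simp only [coeff_single]
  exact (Finsupp.sum_single X.coeff).symm

lemma st_st {cj : K →+* K} (hcj : ∀ x, cj (cj x) = x) (X : AddMonoidAlgebra K Γ) :
    st cj Γ (st cj Γ X) = X := by
  conv_rhs => rw [eq_sum X]
  conv_lhs => rw [eq_sum X]
  rw [map_sum, map_sum]
  refine Finset.sum_congr rfl fun u _ => ?_
  rw [st_single, st_single, neg_neg, hcj]

omit [AddCommGroup Γ] in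
lemma coeff_sum_single {ι : Type} [DecidableEq Γ] (s : Finset ι) (x : ι → Γ) (c : ι → K) (v : Γ) :
    (∑ i ∈ s, single (x i) (c i)).coeff v = ∑ i ∈ s, if x i = v then c i else 0 := by
  rw [coeff_sum, Finsupp.finsetSum_apply]
  refine Finset.sum_congr rfl fun i _ => ?_
  rw [coeff_single, Finsupp.single_apply]

lemma coeff_mul_sums {ι κ : Type} [DecidableEq Γ] (s : Finset ι) (t : Finset κ) (x : ι → Γ)
    (c : ι → K) (y : κ → Γ) (d : κ → K) (v : Γ) :
    ((∑ i ∈ s, single (x i) (c i)) * (∑ j ∈ t, single (y j) (d j))).coeff v =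
      ∑ i ∈ s, ∑ j ∈ t, if x i + y j = v then c i * d j else 0 := by
  rw [Finset.sum_mul_sum, coeff_sum, Finsupp.finsetSum_apply]
  refine Finset.sum_congr rfl fun i _ => ?_
  rw [coeff_sum, Finsupp.finsetSum_apply]
  refine Finset.sum_congr rfl fun j _ => ?_
  rw [single_mul_single, coeff_single, Finsupp.single_apply]

end Alg

section Mono

variable {K : Type} [Field K]

/-- `A A^# = 1` implies that `A` is a monomial -/
lemma monomial {cj : K →+* K} {A : AddMonoidAlgebra K (ℤ × ℤ)} (h : A * st cj (ℤ × ℤ) A = 1) :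
    ∃ μ γ, γ ≠ 0 ∧ A = single μ γ := by
  classical
  have hA0 : A ≠ 0 := by
    rintro rfl
    rw [zero_mul] at h
    exact zero_ne_one h
  have hne : A.coeff.support.Nonempty := by
    rw [Finsupp.support_nonempty_iff]
    intro h0
    exact hA0 (coeff_eq_zero.1 h0)
  obtain ⟨p, hp, hp2⟩ := Finset.exists_max_image A.coeff.support (fun v => toLex v) hne
  obtain ⟨n, hn, hn2⟩ := Finset.exists_min_image A.coeff.support (fun v => toLex v) hne
  have h1 : (A * st cj (ℤ × ℤ) A).coeff (p - n) = A.coeff p * cj (A.coeff n) := by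
    conv_lhs => rw [eq_sum A]
    rw [map_sum]
    simp only [st_single]
    rw [coeff_mul_sums, Finset.sum_eq_single p, Finset.sum_eq_single n]
    · rw [if_pos (by abel)]
    · intro v hv hvn
      rw [if_neg fun h2 => hvn ?_]
      have h3 : v = n := by
        have : -v = -n := by
          have h4 : p + -v = p + -n := by rw [h2]; abel
          exact add_left_cancel h4
        exact neg_injective this
      exact h3
    · intro h2
      exact absurd hn h2
    · intro u hu hup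
      refine Finset.sum_eq_zero fun v hv => ?_
      rw [if_neg fun h2 => hup ?_]
      have h3 : toLex u ≤ toLex p := hp2 u hu
      have h4 : toLex n ≤ toLex v := hn2 v hv
      have h5 : toLex u + toLex n = toLex p + toLex v := by
        have h6 : u + n = p + v := by
          have : u + -v + v + n = p - n + v + n := by rw [h2]
          rw [neg_add_cancel_right] at this
          rw [this]; abel
        exact congrArg toLex h6
      have h6 : toLex p ≤ toLex u := by
        by_contra hlt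
        push Not at hlt
        have := add_lt_add_of_lt_of_le hlt h4
        rw [h5] at this
        exact lt_irrefl _ this
      exact toLex.injective (le_antisymm h3 h6)
    · intro h2
      exact absurd hp h2
  have hp0 : A.coeff p ≠ 0 := Finsupp.mem_support_iff.1 hp
  have hn0 : A.coeff n ≠ 0 := Finsupp.mem_support_iff.1 hn
  have hpn : p = n := by
    by_contra hne'
    rw [h, one_def, coeff_single, Finsupp.single_apply, if_neg (fun h2 => hne' (sub_eq_zero.1 h2.symm))]
      at h1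
    exact mul_ne_zero hp0 ((map_ne_zero cj).2 hn0) h1.symm
  refine ⟨p, A.coeff p, hp0, ?_⟩
  have h2 : A.coeff.support = {p} := by
    refine Finset.eq_singleton_iff_unique_mem.2 ⟨hp, fun v hv => ?_⟩
    have h3 : toLex v ≤ toLex p := hp2 v hv
    have h4 : toLex n ≤ toLex v := hn2 v hv
    rw [← hpn] at h4
    exact toLex.injective (le_antisymm h3 h4)
  conv_lhs => rw [eq_sum A, h2, Finset.sum_singleton]

/-- `s ↦ s ^ N` -/
noncomputable def sN (K : Type) [Field K] (N : ℕ) : AddMonoidAlgebra K ℤ →+* AddMonoidAlgebra K ℤ :=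
  tw (RingHom.id K) (nsmulAddMonoidHom N) 1

lemma sN_single (N : ℕ) (v : ℤ) (x : K) : sN K N (single v x) = single (N * v) x := by
  unfold sN
  rw [tw_single]
  simp

lemma coeff_sN {N : ℕ} (hN : 0 < N) (X : AddMonoidAlgebra K ℤ) (v : ℤ) :
    (sN K N X).coeff (N * v) = X.coeff v := by
  classical
  conv_lhs => rw [eq_sum X]
  conv_rhs => rw [eq_sum X]
  rw [map_sum]
  simp only [sN_single]
  rw [coeff_sum_single, coeff_sum_single]
  refine Finset.sum_congr rfl fun u _ => ?_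
  have : ((N : ℤ) * u = N * v) ↔ u = v :=
    mul_right_inj' (by exact_mod_cast hN.ne')
  simp only [this]

lemma coeff_sN_ne {N : ℕ} (X : AddMonoidAlgebra K ℤ) (v : ℤ) (h : (sN K N X).coeff v ≠ 0) :
    (N : ℤ) ∣ v := by
  classical
  by_contra hv
  apply h
  rw [eq_sum X, map_sum]
  simp only [sN_single]
  rw [coeff_sum_single]
  refine Finset.sum_eq_zero fun u _ => ?_
  rw [if_neg fun h2 => hv ⟨u, h2.symm⟩]

/-- the last step -/
lemma back {N : ℕ} (hN : 0 < N) {G F : AddMonoidAlgebra K ℤ} {ρ μ : ℤ} {γ : K} (hF : F ≠ 0)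
    (hγ : γ ≠ 0) (h : single ρ 1 * sN K N G = sN K N F * single μ γ) :
    ∃ ν : ℤ, G = single ν γ * F := by
  have h1 : sN K N G = sN K N F * single (μ - ρ) γ := by
    have h2 : single (-ρ) 1 * (single ρ 1 * sN K N G) = single (-ρ) 1 * (sN K N F * single μ γ) := by
      rw [h]
    rw [← mul_assoc, single_mul_single, neg_add_cancel, one_mul, ← one_def, one_mul,
      mul_left_comm, single_mul_single, one_mul] at h2
    rw [h2]
    congr 2
    ring
  obtain ⟨e, he⟩ : ∃ e, F.coeff e ≠ 0 := by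
    by_contra hh
    push Not at hh
    apply hF
    apply coeff_injective
    ext e
    exact hh e
  have h3 : (sN K N G).coeff (N * e + (μ - ρ)) ≠ 0 := by
    rw [h1, coeff_mul_single_eq_coeff_mul (N * e) (fun a _ => by constructor <;> intro h4 <;> linarith),
      coeff_sN hN]
    exact mul_ne_zero he hγ
  have h4 : (N : ℤ) ∣ μ - ρ := by
    have := coeff_sN_ne G _ h3
    exact (Int.dvd_add_right (Dvd.intro _ rfl)).1 this
  obtain ⟨ν, hν⟩ := h4
  refine ⟨ν, ?_⟩
  have h5 : sN K N G = sN K N (single ν γ * F) := by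
    rw [h1, map_mul, sN_single, hν, mul_comm]
  apply coeff_injective
  ext v
  rw [← coeff_sN hN G v, ← coeff_sN hN (single ν γ * F) v, h5]

end Mono

section Main

variable {K : Type} [Field K]

/-- `<b, .>` -/
def dtH (b : ℤ × ℤ) : ℤ × ℤ →+ ℤ where
  toFun d := dt b d
  map_zero' := by simp [dt]
  map_add' x y := by simp only [dt, Prod.fst_add, Prod.snd_add]; ring

/-- `v ↦ ζ ^ <c, v>` -/
def chH (ζ : Kˣ) (c : ℤ × ℤ) : Multiplicative (ℤ × ℤ) →* Kˣ where
  toFun v := ζ ^ (dt c (Multiplicative.toAdd v))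
  map_one' := by simp [dt]
  map_mul' x y := by
    rw [← zpow_add]
    congr 1
    exact (dtH c).map_add _ _

/-- the polynomial in one variable -/
noncomputable def f1 (S : Finset (ℤ × ℤ)) (P : ℤ × ℤ → K) (b c : ℤ × ℤ) (ζ : Kˣ) :
    AddMonoidAlgebra K ℤ :=
  ∑ k ∈ S, single (dt b k) (P k * (ζ ^ dt c k : Kˣ))

/-- `P(z ^ N)` -/
noncomputable def PN (S : Finset (ℤ × ℤ)) (P : ℤ × ℤ → K) (N : ℕ) : AddMonoidAlgebra K (ℤ × ℤ) :=
  ∑ k ∈ S, single (N • k) (P k)

lemma common_den {ι : Type} [Fintype ι] (c : ι → ℚ) :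
    ∃ (D : ℕ) (n : ι → ℤ), 0 < D ∧ ∀ i, (D : ℚ) * c i = n i := by
  classical
  refine ⟨∏ i, (c i).den, fun i => (c i).num * ∏ j ∈ Finset.univ.erase i, ((c j).den : ℤ),
    Finset.prod_pos fun i _ => (c i).pos, fun i => ?_⟩
  rw [← Finset.mul_prod_erase Finset.univ (fun i => (c i).den) (Finset.mem_univ i)]
  push_cast
  have h : ((c i).den : ℚ) * c i = (c i).num := Rat.den_mul_eq_num (c i)
  calc ((c i).den : ℚ) * (∏ x ∈ Finset.univ.erase i, ((c x).den : ℚ)) * c i
      = ((c i).den : ℚ) * c i * ∏ x ∈ Finset.univ.erase i, ((c x).den : ℚ) := by ring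
    _ = _ := by rw [h]

lemma den {r : ℕ} (q : Fin r → ℚ × ℚ) : ∃ (N : ℕ) (n : Fin r → ℤ × ℤ), 0 < N ∧
    ∀ i, (((n i).1 : ℚ), ((n i).2 : ℚ)) = (N : ℚ) • q i := by
  obtain ⟨N, n, hN, hn⟩ := common_den (fun x : Fin r × Bool => if x.2 then (q x.1).1 else (q x.1).2)
  refine ⟨N, fun i => (n (i, true), n (i, false)), hN, fun i => ?_⟩
  have h1 := hn (i, true)
  have h2 := hn (i, false)
  simp only [if_true, if_false, Bool.false_eq_true] at h1 h2
  exact Prod.ext h1.symm h2.symm

end Main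

end TWOM

open TWOM

/-- TWO -/
theorem two {K : Type} [Field K] (cj : K →+* K) (hcj : ∀ x, cj (cj x) = x)
    (S : Finset (ℤ × ℤ)) (P : ℤ × ℤ → K) (hPc : ∀ k, cj (P k) = P k)
    (hdiv : ∀ N : ℕ, 0 < N → ∀ U V : AddMonoidAlgebra K (ℤ × ℤ), PN S P N ∣ U * V →
      PN S P N ∣ U ∨ PN S P N ∣ V)
    (b c : ℤ × ℤ)
    (hinj : ∀ k ∈ S, ∀ k' ∈ S, ∀ l ∈ S, ∀ l' ∈ S, dt b (k - k') = dt b (l - l') → k - k' = l - l')
    (ζ : Kˣ) (hζ : ∀ N : ℕ, 0 < N → ∃ ξ : Kˣ, ξ ^ N = ζ ∧ cj (ξ : K) = (ξ⁻¹ : Kˣ))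
    {r : ℕ} (m : Fin r → ℤ) (a : Fin r → K) (q : Fin r → ℚ × ℚ)
    (h1 : ∀ i j, ((m i - m j : ℤ) : ℚ) = dq b (q i - q j))
    (h2 : ∀ i j k l, m i - m j = m k - m l ↔ q i - q j = q k - q l)
    (h3 : ∀ i j, ∀ k ∈ S, ∀ k' ∈ S, m i - m j = dt b (k - k') ↔
      q i - q j = (((k - k').1 : ℚ), ((k - k').2 : ℚ)))
    (hf : f1 S P b c ζ ≠ 0)
    (hG : (∑ i, single (m i) (a i)) * st cj ℤ (∑ i, single (m i) (a i)) =
      f1 S P b c ζ * st cj ℤ (f1 S P b c ζ)) :
    ∃ (ν : ℤ) (γ : K), γ ≠ 0 ∧ ((∑ i, single (m i) (a i)) = single ν γ * f1 S P b c ζ ∨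
      (∑ i, single (m i) (a i)) = single ν γ * st cj ℤ (f1 S P b c ζ)) := by
  classical
  obtain ⟨N, n, hN, hn⟩ := den q
  obtain ⟨ξ, hξ, hξc⟩ := hζ N hN
  have hN' : (N : ℚ) ≠ 0 := by exact_mod_cast hN.ne'
  have hNz : (N : ℤ) ≠ 0 := by exact_mod_cast hN.ne'
  have hcu : ∀ e : ℤ, cj ((ξ ^ e : Kˣ) : K) = ((ξ ^ (-e) : Kˣ) : K) := by
    intro e
    have h4 : cj ((ξ ^ e : Kˣ) : K) = ((Units.map (cj : K →* K) ξ ^ e : Kˣ) : K) := by
      rw [← map_zpow]
      rfl
    have h5 : Units.map (cj : K →* K) ξ = ξ⁻¹ := Units.ext hξc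
    rw [h4, h5, zpow_neg, inv_zpow]
  have hcζ : ∀ e : ℤ, cj ((ζ ^ e : Kˣ) : K) = ((ζ ^ (-e) : Kˣ) : K) := by
    intro e
    have : ∀ e : ℤ, ζ ^ e = ξ ^ (N * e : ℤ) := by
      intro e
      rw [← hξ, zpow_mul, zpow_natCast]
    rw [this, this, hcu]
    congr 2
    ring
  have hζξ : ∀ k : ℤ × ℤ, ζ ^ dt c k = ξ ^ dt c (N • k) := by
    intro k
    have : dt c (N • k) = N * dt c k := by
      have := (dtH c).map_nsmul N k
      rw [nsmul_eq_mul] at this
      exact this
    rw [this, ← hξ, zpow_mul, zpow_natCast]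
  -- relations between `n`, `q`, `m`
  have hnq : ∀ i j k l, n i - n j = n k - n l ↔ q i - q j = q k - q l := by
    intro i j k l
    have e : ∀ x y : ℤ × ℤ, x = y ↔ (((x.1 : ℚ), (x.2 : ℚ)) : ℚ × ℚ) = ((y.1 : ℚ), (y.2 : ℚ)) := by
      intro x y
      constructor
      · rintro rfl; rfl
      · intro h
        have a1 : (x.1 : ℚ) = y.1 := (Prod.ext_iff.1 h).1
        have a2 : (x.2 : ℚ) = y.2 := (Prod.ext_iff.1 h).2
        exact Prod.ext (by exact_mod_cast a1) (by exact_mod_cast a2)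
    have e2 : ∀ i j, ((((n i - n j).1 : ℚ), ((n i - n j).2 : ℚ)) : ℚ × ℚ) = (N : ℚ) • (q i - q j) := by
      intro i j
      rw [smul_sub, ← hn, ← hn]
      simp
    rw [e, e2, e2, smul_right_inj hN']
  have hnk : ∀ i j (d : ℤ × ℤ), n i - n j = N • d ↔ q i - q j = ((d.1 : ℚ), (d.2 : ℚ)) := by
    intro i j d
    have e2 : ((((n i - n j).1 : ℚ), ((n i - n j).2 : ℚ)) : ℚ × ℚ) = (N : ℚ) • (q i - q j) := by
      rw [smul_sub, ← hn, ← hn]
      simp
    constructor
    · intro h
      rw [h] at e2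
      have e3 : (N : ℚ) • (((d.1 : ℚ), (d.2 : ℚ)) : ℚ × ℚ) = (N : ℚ) • (q i - q j) := by
        rw [← e2]
        refine Prod.ext ?_ ?_ <;> simp
      exact ((smul_right_inj hN').1 e3).symm
    · intro h
      rw [h] at e2
      have a1 := (Prod.ext_iff.1 e2).1
      have a2 := (Prod.ext_iff.1 e2).2
      simp only [Prod.smul_fst, Prod.smul_snd, smul_eq_mul] at a1 a2
      refine Prod.ext ?_ ?_
      · rw [Prod.smul_fst, nsmul_eq_mul]
        exact_mod_cast a1
      · rw [Prod.smul_snd, nsmul_eq_mul]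
        exact_mod_cast a2
  -- coefficients of the identity in one variable
  have hone : ∀ e : ℤ, (∑ i, ∑ j, if m i - m j = e then a i * cj (a j) else 0) =
      ∑ k ∈ S, ∑ k' ∈ S, if dt b (k - k') = e then P k * P k' * ((ζ ^ dt c (k - k') : Kˣ) : K) else 0 := by
    intro e
    have h4 := congrArg (fun X => X.coeff e) hG
    rw [map_sum] at h4
    simp only [st_single] at h4
    rw [coeff_mul_sums] at h4
    unfold f1 at h4
    rw [map_sum] at h4
    simp only [st_single] at h4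
    rw [coeff_mul_sums] at h4
    rw [show (∑ i, ∑ j, if m i - m j = e then a i * cj (a j) else 0) =
      ∑ i, ∑ j, if m i + -m j = e then a i * cj (a j) else 0 from by simp only [sub_eq_add_neg], h4]
    refine Finset.sum_congr rfl fun k _ => Finset.sum_congr rfl fun k' _ => ?_
    have h5 : dt b (k - k') = dt b k + -dt b k' := by
      have := (dtH b).map_sub k k'
      rw [← sub_eq_add_neg]
      exact this
    have h6 : dt c (k - k') = dt c k + -dt c k' := by
      have := (dtH c).map_sub k k'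
      rw [← sub_eq_add_neg]
      exact this
    rw [h5, h6]
    refine if_congr Iff.rfl ?_ rfl
    rw [map_mul, hPc, hcζ, zpow_add]
    push_cast
    ring
  -- the polynomial in two variables
  obtain ⟨GG, hGG⟩ : ∃ GG : AddMonoidAlgebra K (ℤ × ℤ),
    GG = ∑ i, single (n i) (a i * ((ξ ^ (-dt c (n i)) : Kˣ) : K)) := ⟨_, rfl⟩
  have hstP : st cj (ℤ × ℤ) (PN S P N) = ∑ k ∈ S, single (-(N • k)) (P k) := by
    unfold PN
    rw [map_sum]
    refine Finset.sum_congr rfl fun k _ => ?_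
    rw [st_single, hPc]
  have hstG : st cj (ℤ × ℤ) GG = ∑ i, single (-n i) (cj (a i) * ((ξ ^ (dt c (n i)) : Kˣ) : K)) := by
    rw [hGG, map_sum]
    refine Finset.sum_congr rfl fun i _ => ?_
    rw [st_single, map_mul, hcu, neg_neg]
  have htwo : GG * st cj (ℤ × ℤ) GG = PN S P N * st cj (ℤ × ℤ) (PN S P N) := by
    rw [hstP, hstG, hGG]
    unfold PN
    apply coeff_injective
    ext v
    rw [coeff_mul_sums, coeff_mul_sums]
    have hL : (∑ i, ∑ j, if n i + -n j = v then
        a i * ((ξ ^ (-dt c (n i)) : Kˣ) : K) * (cj (a j) * ((ξ ^ (dt c (n j)) : Kˣ) : K)) else 0) =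
        ((ξ ^ (-dt c v) : Kˣ) : K) * ∑ i, ∑ j, if n i - n j = v then a i * cj (a j) else 0 := by
      rw [Finset.mul_sum]
      refine Finset.sum_congr rfl fun i _ => ?_
      rw [Finset.mul_sum]
      refine Finset.sum_congr rfl fun j _ => ?_
      rw [mul_ite, mul_zero, sub_eq_add_neg]
      split_ifs with h4
      · have h5 : -dt c v = -dt c (n i) + dt c (n j) := by
          rw [← h4, ← sub_eq_add_neg]
          have := (dtH c).map_sub (n i) (n j)
          have h6 : dt c (n i - n j) = dt c (n i) - dt c (n j) := this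
          rw [h6]
          ring
        rw [h5, zpow_add]
        push_cast
        ring
      · rfl
    rw [hL]
    by_cases hex : ∃ i j, n i - n j = v
    · obtain ⟨i₀, j₀, h4⟩ := hex
      have e1 : ∀ i j, (n i - n j = v) ↔ (m i - m j = m i₀ - m j₀) := by
        intro i j
        rw [← h4, hnq, h2]
      have e2 : ∀ k ∈ S, ∀ k' ∈ S, (dt b (k - k') = m i₀ - m j₀) ↔ N • k + -(N • k') = v := by
        intro k hk k' hk'
        rw [eq_comm, h3 i₀ j₀ k hk k' hk', ← hnk, h4, ← sub_eq_add_neg, ← smul_sub, eq_comm]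
      simp only [e1]
      rw [hone, Finset.mul_sum]
      refine Finset.sum_congr rfl fun k hk => ?_
      rw [Finset.mul_sum]
      refine Finset.sum_congr rfl fun k' hk' => ?_
      rw [if_congr (e2 k hk k' hk') rfl rfl, mul_ite, mul_zero]
      split_ifs with h5
      · rw [hζξ, smul_sub, sub_eq_add_neg, h5, mul_left_comm, ← Units.val_mul, ← zpow_add,
          neg_add_cancel, zpow_zero, Units.val_one, mul_one]
      · rfl
    · have e0 : (∑ i, ∑ j, if n i - n j = v then a i * cj (a j) else 0) = 0 := by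
        refine Finset.sum_eq_zero fun i _ => Finset.sum_eq_zero fun j _ => ?_
        rw [if_neg fun h4 => hex ⟨i, j, h4⟩]
      rw [e0, mul_zero]
      by_cases hex2 : ∃ k ∈ S, ∃ k' ∈ S, N • k + -(N • k') = v
      · obtain ⟨k₀, hk₀, k₀', hk₀', h4⟩ := hex2
        have e1 : ∀ k ∈ S, ∀ k' ∈ S, (dt b (k - k') = dt b (k₀ - k₀')) ↔ N • k + -(N • k') = v := by
          intro k hk k' hk'
          rw [← h4, ← sub_eq_add_neg, ← sub_eq_add_neg, ← smul_sub, ← smul_sub]
          constructor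
          · intro h5
            rw [hinj k hk k' hk' k₀ hk₀ k₀' hk₀' h5]
          · intro h5
            have h6 : k - k' = k₀ - k₀' := by
              have a1 := (Prod.ext_iff.1 h5).1
              have a2 := (Prod.ext_iff.1 h5).2
              rw [Prod.smul_fst, Prod.smul_fst, nsmul_eq_mul, nsmul_eq_mul] at a1
              rw [Prod.smul_snd, Prod.smul_snd, nsmul_eq_mul, nsmul_eq_mul] at a2
              exact Prod.ext (mul_left_cancel₀ hNz a1) (mul_left_cancel₀ hNz a2)
            rw [h6]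
        have e3 : (∑ i, ∑ j, if m i - m j = dt b (k₀ - k₀') then a i * cj (a j) else 0) = 0 := by
          refine Finset.sum_eq_zero fun i _ => Finset.sum_eq_zero fun j _ => ?_
          rw [if_neg fun h5 => hex ⟨i, j, ?_⟩]
          rw [h3 i j k₀ hk₀ k₀' hk₀', ← hnk, smul_sub, sub_eq_add_neg (N • k₀), h4] at h5
          exact h5
        have e4 : ((ξ ^ (dt c v) : Kˣ) : K) *
            (∑ k ∈ S, ∑ k' ∈ S, if N • k + -(N • k') = v then P k * P k' else 0) = 0 := by
          refine Eq.trans ?_ ((hone (dt b (k₀ - k₀'))).symm.trans e3)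
          rw [Finset.mul_sum]
          refine Finset.sum_congr rfl fun k hk => ?_
          rw [Finset.mul_sum]
          refine Finset.sum_congr rfl fun k' hk' => ?_
          rw [if_congr (e1 k hk k' hk') rfl rfl, mul_ite, mul_zero]
          split_ifs with h5
          · rw [hζξ, smul_sub, sub_eq_add_neg, h5, mul_comm]
          · rfl
        exact ((mul_eq_zero.1 e4).resolve_left (Units.ne_zero _)).symm
      · symm
        refine Finset.sum_eq_zero fun k hk => Finset.sum_eq_zero fun k' hk' => ?_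
        rw [if_neg fun h4 => hex2 ⟨k, hk, k', hk', h4⟩]
  -- the map to one variable
  obtain ⟨Φ, hΦ⟩ : ∃ Φ : AddMonoidAlgebra K (ℤ × ℤ) →+* AddMonoidAlgebra K ℤ,
      ∀ v x, Φ (single v x) = single (dt b v) (x * ((ξ ^ dt c v : Kˣ) : K)) :=
    ⟨tw (RingHom.id K) (dtH b) (chH ξ c), fun v x => tw_single _ _ _ _ _⟩
  have hdtN : ∀ k : ℤ × ℤ, dt b (N • k) = N * dt b k := by
    intro k
    have := (dtH b).map_nsmul N k
    rw [nsmul_eq_mul] at this
    exact this
  have hΦP : Φ (PN S P N) = sN K N (f1 S P b c ζ) := by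
    unfold PN f1
    rw [map_sum, map_sum]
    refine Finset.sum_congr rfl fun k _ => ?_
    rw [hΦ, sN_single, hdtN, ← hζξ]
  have hΦP' : Φ (st cj (ℤ × ℤ) (PN S P N)) = sN K N (st cj ℤ (f1 S P b c ζ)) := by
    rw [hstP]
    unfold f1
    rw [map_sum, map_sum, map_sum]
    refine Finset.sum_congr rfl fun k _ => ?_
    have h4 : dt b (-(N • k)) = N * -dt b k := by
      have := (dtH b).map_neg (N • k)
      have h5 : dt b (-(N • k)) = -dt b (N • k) := this
      rw [h5, hdtN]
      ring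
    have h5 : dt c (-(N • k)) = -dt c (N • k) := (dtH c).map_neg (N • k)
    rw [hΦ, st_single, sN_single, h4, map_mul, hPc, hcζ, h5, zpow_neg, zpow_neg, ← hζξ]
  -- the constant
  obtain ⟨ρ, hρ⟩ : ∃ ρ : ℤ, ∀ i, dt b (n i) = N * m i + ρ := by
    rcases Nat.eq_zero_or_pos r with h0 | h0
    · subst h0
      exact ⟨0, fun i => i.elim0⟩
    · refine ⟨dt b (n ⟨0, h0⟩) - N * m ⟨0, h0⟩, fun i => ?_⟩
      have h4 : ∀ i, ((dt b (n i) : ℤ) : ℚ) = N * dq b (q i) := by
        intro i
        rw [← dq_cast, hn]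
        unfold dq
        simp only [Prod.smul_fst, Prod.smul_snd, smul_eq_mul]
        ring
      have h5 := h1 i ⟨0, h0⟩
      have h6 : dq b (q i - q ⟨0, h0⟩) = dq b (q i) - dq b (q ⟨0, h0⟩) := by
        unfold dq
        simp only [Prod.fst_sub, Prod.snd_sub]
        ring
      rw [h6] at h5
      have h7 : ((dt b (n i) : ℤ) : ℚ) = ((N * m i + (dt b (n ⟨0, h0⟩) - N * m ⟨0, h0⟩) : ℤ) : ℚ) := by
        push_cast at h5 ⊢
        rw [h4, h4]
        linear_combination (-(N : ℚ)) * h5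
      exact_mod_cast h7
  have hΦG : Φ GG = single ρ 1 * sN K N (∑ i, single (m i) (a i)) := by
    rw [hGG, map_sum, map_sum, Finset.mul_sum]
    refine Finset.sum_congr rfl fun i _ => ?_
    rw [hΦ, sN_single, single_mul_single, hρ, one_mul, mul_assoc, ← Units.val_mul, ← zpow_add,
      neg_add_cancel, zpow_zero, Units.val_one, mul_one, add_comm]
  -- nonvanishing
  have hsN : sN K N (f1 S P b c ζ) ≠ 0 := by
    intro h4
    apply hf
    apply coeff_injective
    ext v
    rw [← coeff_sN hN (f1 S P b c ζ) v, h4]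
    rfl
  have hP0 : PN S P N ≠ 0 := by
    intro h4
    rw [h4, map_zero] at hΦP
    exact hsN hΦP.symm
  have hP0' : st cj (ℤ × ℤ) (PN S P N) ≠ 0 := by
    intro h4
    apply hP0
    rw [← st_st hcj (PN S P N), h4, map_zero]
  have hf' : st cj ℤ (f1 S P b c ζ) ≠ 0 := by
    intro h4
    apply hf
    rw [← st_st hcj (f1 S P b c ζ), h4, map_zero]
  have hPP : PN S P N * st cj (ℤ × ℤ) (PN S P N) ≠ 0 := mul_ne_zero hP0 hP0'
  rcases hdiv N hN GG (st cj (ℤ × ℤ) GG) (by rw [htwo]; exact dvd_mul_right _ _) with ⟨A, hA⟩ | ⟨A, hA⟩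
  · have h4 : A * st cj (ℤ × ℤ) A = 1 := by
      apply mul_left_cancel₀ hPP
      rw [mul_one]
      conv_rhs => rw [← htwo, hA, map_mul]
      ring
    obtain ⟨μ, γ, hγ, hAμ⟩ := monomial h4
    have h5 : single ρ 1 * sN K N (∑ i, single (m i) (a i)) = sN K N (f1 S P b c ζ) *
        single (dt b μ) (γ * ((ξ ^ dt c μ : Kˣ) : K)) := by
      rw [← hΦG, hA, map_mul, hΦP, hAμ, hΦ]
    obtain ⟨ν, hν⟩ := back hN hf (mul_ne_zero hγ (Units.ne_zero _)) h5
    exact ⟨ν, _, mul_ne_zero hγ (Units.ne_zero _), Or.inl hν⟩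
  · have hA' : GG = st cj (ℤ × ℤ) (PN S P N) * st cj (ℤ × ℤ) A := by
      rw [← map_mul, ← hA, st_st hcj]
    have h4 : A * st cj (ℤ × ℤ) A = 1 := by
      apply mul_left_cancel₀ hPP
      rw [mul_one]
      conv_rhs => rw [← htwo, hA, hA']
      ring
    obtain ⟨μ, γ, hγ, hAμ⟩ := monomial h4
    have hγ' : cj γ ≠ 0 := (map_ne_zero cj).2 hγ
    have h5 : single ρ 1 * sN K N (∑ i, single (m i) (a i)) = sN K N (st cj ℤ (f1 S P b c ζ)) *
        single (dt b (-μ)) (cj γ * ((ξ ^ dt c (-μ) : Kˣ) : K)) := by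
      rw [← hΦG, hA', map_mul, hΦP', hAμ, st_single, hΦ]
    obtain ⟨ν, hν⟩ := back hN hf' (mul_ne_zero hγ' (Units.ne_zero _)) h5
    exact ⟨ν, _, mul_ne_zero hγ' (Units.ne_zero _), Or.inr hν⟩

end MP743d1e.CZ
end
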